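import Mathlib
import Pool.Agent.W769.Kak.Wrap
import Pool.Agent.W769.Iso.Cube

set_option autoImplicit false

/-! # Arithmetic progressions selected by continuous functions of Sobolev or Hölder classes -/

namespace Pool.Agent.Q184.AKS

open MeasureTheory Set Metric
open scoped ENNReal NNReal Pointwise

/-- a set of diameter at most `δ` has volume at most `(2 δ) ^ m` -/
theorem vol_small {m : ℕ} {U : Set (Fin m → ℝ)} {δ : ℝ} (hδ : 0 < δ)
    (h : ∀ x ∈ U, ∀ y ∈ U, dist x y ≤ δ) : volume U ≤ ENNReal.ofReal ((2 * δ) ^ m) := by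
  rcases U.eq_empty_or_nonempty with rfl | ⟨x, hx⟩
  · simp
  · refine (measure_mono (fun y hy => mem_closedBall.2 (h y hy x hx))).trans ?_
    rw [Real.volume_pi_closedBall _ hδ.le, Fintype.card_fin]

/-- covering numbers from the volume of a coordinate projection -/
theorem cover {n m : ℕ} (ι : Fin m → Fin n) {B : Set (Fin n → ℝ)} {c0 : ℝ}
    (hc : ENNReal.ofReal c0 ≤ volume ((fun (x : Fin n → ℝ) (j : Fin m) => x (ι j)) '' B))
    {δ : ℝ} (hδ : 0 < δ) (N : ℕ) (U : Fin N → Set (Fin n → ℝ))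
    (hU : ∀ i, ∀ x ∈ U i, ∀ y ∈ U i, dist x y ≤ δ) (hB : B ⊆ ⋃ i, U i) :
    c0 * ((2 * δ) ^ m)⁻¹ ≤ N := by
  set p : (Fin n → ℝ) → (Fin m → ℝ) := fun x j => x (ι j) with hp
  have hlip : ∀ x y, dist (p x) (p y) ≤ dist x y := by
    intro x y
    rw [dist_pi_le_iff dist_nonneg]
    intro j
    exact dist_le_pi_dist x y (ι j)
  have h1 : p '' B ⊆ ⋃ i, p '' U i := by
    rintro _ ⟨x, hx, rfl⟩
    obtain ⟨i, hi⟩ := mem_iUnion.1 (hB hx)
    exact mem_iUnion.2 ⟨i, x, hi, rfl⟩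
  have h2 : volume (p '' B) ≤ N * ENNReal.ofReal ((2 * δ) ^ m) := by
    refine (measure_mono h1).trans ((measure_iUnion_le _).trans ?_)
    rw [tsum_fintype]
    refine (Finset.sum_le_card_nsmul _ _ (ENNReal.ofReal ((2 * δ) ^ m)) ?_).trans ?_
    · intro i _
      refine vol_small hδ ?_
      rintro _ ⟨x, hx, rfl⟩ _ ⟨y, hy, rfl⟩
      exact (hlip x y).trans (hU i x hx y hy)
    · simp
  have h3 : ENNReal.ofReal c0 ≤ ENNReal.ofReal (N * (2 * δ) ^ m) := by
    rw [ENNReal.ofReal_mul (by positivity), ENNReal.ofReal_natCast]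
    exact hc.trans h2
  rw [ENNReal.ofReal_le_ofReal_iff (by positivity)] at h3
  rw [← div_eq_mul_inv, div_le_iff₀ (by positivity)]
  exact h3

/-- extend `u ∈ ℝ^m` by the coordinates of `v₀` -/
def ext {n m : ℕ} (v0 : Fin n → ℝ) (u : Fin m → ℝ) : Fin n → ℝ :=
  fun k => if h : (k : ℕ) < m then u ⟨k, h⟩ else v0 k

theorem ext_castLE {n m : ℕ} (hmn : m ≤ n) (v0 : Fin n → ℝ) (u : Fin m → ℝ) (j : Fin m) :
    ext v0 u (Fin.castLE hmn j) = u j := by
  simp [ext]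

theorem ext_mem {n m : ℕ} (hmn : m ≤ n) {v0 : Fin n → ℝ} {R : ℝ} (hR : 0 ≤ R) {u : Fin m → ℝ}
    (hu : u ∈ closedBall (fun j => v0 (Fin.castLE hmn j)) R) : ext v0 u ∈ closedBall v0 R := by
  rw [mem_closedBall, dist_pi_le_iff hR] at hu ⊢
  intro k
  unfold ext
  split_ifs with h
  · exact hu ⟨k, h⟩
  · simpa using hR

theorem ext_sub {n m : ℕ} (v0 : Fin n → ℝ) (u w : Fin m → ℝ) :
    ‖ext v0 u - ext v0 w‖ ≤ ‖u - w‖ := by
  rw [pi_norm_le_iff_of_nonneg (norm_nonneg _)]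
  intro k
  simp only [Pi.sub_apply, ext]
  split_ifs with h
  · exact norm_le_pi_norm (u - w) ⟨k, h⟩
  · simp

/-- **Hölder selections.** -/
theorem hoelder {n m : ℕ} (hm : 1 ≤ m) (hmn : m ≤ n) {α : ℝ} (hα : 1 - 1 / (m : ℝ) < α)
    (hα0 : 0 < α) {a : (Fin n → ℝ) → Fin n → ℝ} (v0 : Fin n → ℝ) {R H : ℝ} (hR : 0 < R)
    (hH : ∀ v ∈ closedBall v0 R, ∀ w ∈ closedBall v0 R, ‖a v - a w‖ ≤ H * ‖v - w‖ ^ α)
    (t : Fin (m + 1) → ℝ) (ht : Function.Injective t) :
    ∃ i, volume ((fun (x : Fin n → ℝ) (j : Fin m) => x (Fin.castLE hmn j)) ''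
      ((fun v => a v + t i • v) '' closedBall v0 R)) ≠ 0 := by
  set ι : Fin m → Fin n := Fin.castLE hmn with hι
  set b : (Fin m → ℝ) → Fin m → ℝ := fun u j => a (ext v0 u) (ι j) with hb
  set v1 : Fin m → ℝ := fun j => v0 (ι j) with hv1
  have hm0 : (0 : ℝ) < m := by exact_mod_cast hm
  have hH0 : 0 ≤ H ∨ (∀ v ∈ closedBall v0 R, ∀ w ∈ closedBall v0 R, a v = a w) := by
    by_cases h : 0 ≤ H
    · exact Or.inl h
    · right
      push Not at h
      intro v hv w hw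
      have h1 := hH v hv w hw
      have h2 : 0 ≤ ‖v - w‖ ^ α := by positivity
      have h3 : ‖a v - a w‖ ≤ 0 := h1.trans (by nlinarith)
      exact sub_eq_zero.1 (norm_le_zero_iff.1 h3)
  have hbH : ∀ u ∈ closedBall v1 R, ∀ w ∈ closedBall v1 R, ‖b u - b w‖ ≤ |H| * ‖u - w‖ ^ α := by
    intro u hu w hw
    have h1 : ‖b u - b w‖ ≤ ‖a (ext v0 u) - a (ext v0 w)‖ := by
      rw [pi_norm_le_iff_of_nonneg (norm_nonneg _)]
      intro j
      exact norm_le_pi_norm (a (ext v0 u) - a (ext v0 w)) (ι j)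
    have h2 := hH _ (ext_mem hmn hR.le hu) _ (ext_mem hmn hR.le hw)
    calc ‖b u - b w‖ ≤ H * ‖ext v0 u - ext v0 w‖ ^ α := h1.trans h2
      _ ≤ |H| * ‖ext v0 u - ext v0 w‖ ^ α := by
          gcongr
          exact le_abs_self H
      _ ≤ |H| * ‖u - w‖ ^ α := by
          gcongr
          exact ext_sub v0 u w
  have hcont : ContinuousOn b (closedBall v1 R) := by
    intro u hu
    rw [Metric.continuousWithinAt_iff]
    intro ε hε
    refine ⟨(ε / (|H| + 1)) ^ (1 / α), by positivity, fun {w} hw hwd => ?_⟩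
    rw [dist_eq_norm] at hwd ⊢
    have h1 := hbH w hw u hu
    have h2 : ‖w - u‖ ^ α < ε / (|H| + 1) := by
      calc ‖w - u‖ ^ α < ((ε / (|H| + 1)) ^ (1 / α)) ^ α := by gcongr
        _ = ε / (|H| + 1) := by
          rw [← Real.rpow_mul (by positivity), one_div_mul_cancel hα0.ne', Real.rpow_one]
    have h3 : (|H| + 1) * ‖w - u‖ ^ α < ε := by
      rw [lt_div_iff₀ (by positivity)] at h2
      linarith
    have h4 : 0 ≤ ‖w - u‖ ^ α := by positivity
    nlinarith [abs_nonneg H]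
  have hα' : (m : ℝ) - 1 < α * m := by
    have h1 : (1 - 1 / (m : ℝ)) * m < α * m := by gcongr
    have h2 : (1 - 1 / (m : ℝ)) * m = m - 1 := by field_simp
    linarith
  obtain ⟨i, hi⟩ := Pool.Agent.W769.Kak.slices_hoelder_on (d := m) (by omega) (a := b) v1 hR hα0 hα'
    hcont hbH t ht
  refine ⟨i, fun h0 => hi (measure_mono_null ?_ h0)⟩
  rintro _ ⟨u, hu, rfl⟩
  refine ⟨a (ext v0 u) + t i • ext v0 u, ⟨ext v0 u, ext_mem hmn hR.le hu, rfl⟩, ?_⟩
  ext j
  simp only [Pi.add_apply, Pi.smul_apply, hb]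
  rw [ext_castLE]

/-- **Quantitative form.** -/
theorem quant {n : ℕ} (hn : 2 ≤ n) {α : ℝ} (hα1 : α ≤ 1) (hγ : 0 < α * n - n + 1) :
    ∃ c : ℝ, 0 < c ∧ ∀ (H : ℝ) (v0 : Fin n → ℝ) (r : ℝ) (a : (Fin n → ℝ) → Fin n → ℝ),
      0 ≤ H → 0 < r →
      (∀ v ∈ closedBall v0 r, ∀ w ∈ closedBall v0 r, ‖a v - a w‖ ≤ H * ‖v - w‖ ^ α) →
      ∃ j : ℕ, j ≤ n ∧ ENNReal.ofReal (c * r ^ n *
        (1 + H * r ^ (α - 1)) ^ (-((n : ℝ) * ((n : ℝ) - 1)) / (α * n - n + 1))) ≤
          volume ((fun v => a v + (j : ℝ) • v) '' closedBall v0 r) := by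
  obtain ⟨c, hc, hsl⟩ := Pool.Agent.W769.Iso.slices_quant hn hα1 hγ
  have hn0 : (0 : ℝ) < n := by exact_mod_cast (show 0 < n by omega)
  have hn2 : (2 : ℝ) ≤ n := by exact_mod_cast hn
  have hα : 0 < α := by
    by_contra h
    push Not at h
    nlinarith
  refine ⟨(c / 2) ^ n * n ^ n, by positivity, ?_⟩
  intro H v0 r a hH hr ha
  by_contra hcon
  push Not at hcon
  have hnr : 0 < n * r := by positivity
  set b : (Fin n → ℝ) → Fin n → ℝ :=
    fun u => (n * r)⁻¹ • a (v0 + r • Pool.Agent.W769.Kak.clamp 0 1 u) with hb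
  have hmem : ∀ u : Fin n → ℝ, u ∈ closedBall (0 : Fin n → ℝ) 1 →
      v0 + r • u ∈ closedBall v0 r := by
    intro u hu
    rw [mem_closedBall, dist_zero_right] at hu
    rw [mem_closedBall, dist_eq_norm, add_sub_cancel_left, norm_smul, Real.norm_eq_abs,
      abs_of_pos hr]
    nlinarith
  set H' : ℝ := H * r ^ (α - 1) with hH'
  have hH'0 : 0 ≤ H' := by positivity
  have hbH : Pool.Agent.W769.Iso.Hol b H' α := by
    intro u w
    have h1 := ha _ (hmem _ (Pool.Agent.W769.Kak.clamp_mem 0 zero_le_one u)) _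
      (hmem _ (Pool.Agent.W769.Kak.clamp_mem 0 zero_le_one w))
    have h2 : v0 + r • Pool.Agent.W769.Kak.clamp 0 1 u - (v0 + r • Pool.Agent.W769.Kak.clamp 0 1 w) =
        r • (Pool.Agent.W769.Kak.clamp 0 1 u - Pool.Agent.W769.Kak.clamp 0 1 w) := by
      rw [smul_sub]; abel
    rw [h2, norm_smul, Real.norm_eq_abs, abs_of_pos hr] at h1
    have h3 := Pool.Agent.W769.Iso.clamp_lip (0 : Fin n → ℝ) 1 u w
    calc ‖b u - b w‖ = (n * r)⁻¹ * ‖a (v0 + r • Pool.Agent.W769.Kak.clamp 0 1 u) -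
          a (v0 + r • Pool.Agent.W769.Kak.clamp 0 1 w)‖ := by
          rw [hb]
          simp only
          rw [← smul_sub, norm_smul, norm_inv, Real.norm_eq_abs, abs_of_pos hnr]
      _ ≤ (n * r)⁻¹ * (H * (r * ‖Pool.Agent.W769.Kak.clamp 0 1 u -
          Pool.Agent.W769.Kak.clamp 0 1 w‖) ^ α) := by gcongr
      _ ≤ (n * r)⁻¹ * (H * (r * ‖u - w‖) ^ α) := by gcongr
      _ ≤ r⁻¹ * (H * (r * ‖u - w‖) ^ α) := by
          gcongr
          nlinarith
      _ = H * r ^ (α - 1) * ‖u - w‖ ^ α := by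
          rw [Real.mul_rpow hr.le (norm_nonneg _), Real.rpow_sub_one hr.ne']
          ring
  have hH1 : (0 : ℝ) < 1 + H' := by linarith
  set t : Fin (n + 1) → ℝ := fun i => (i : ℕ) / (n : ℝ) with ht
  have ht1 : ∀ i, |t i| ≤ 1 := by
    intro i
    have h1 : ((i : ℕ) : ℝ) ≤ n := by
      have := i.2
      exact_mod_cast (show (i : ℕ) ≤ n by omega)
    rw [abs_of_nonneg (by positivity)]
    exact (div_le_one hn0).2 h1
  have ht2 : ∀ i j, i ≠ j → 1 / ((n : ℝ) + 1) ≤ |t i - t j| := by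
    intro i j hij
    have h1 : (1 : ℝ) ≤ |((i : ℕ) : ℝ) - ((j : ℕ) : ℝ)| := by
      have h2 : ((i : ℕ) : ℤ) - ((j : ℕ) : ℤ) ≠ 0 := by
        intro h
        apply hij
        ext
        omega
      have h3 : (1 : ℤ) ≤ |((i : ℕ) : ℤ) - ((j : ℕ) : ℤ)| := Int.one_le_abs h2
      exact_mod_cast h3
    have h4 : t i - t j = (((i : ℕ) : ℝ) - ((j : ℕ) : ℝ)) / n := by
      rw [ht]; ring
    rw [h4, abs_div, abs_of_pos hn0]
    calc 1 / ((n : ℝ) + 1) ≤ 1 / n := by gcongr; linarith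
      _ ≤ |((i : ℕ) : ℝ) - ((j : ℕ) : ℝ)| / n := by gcongr
  set R : ℝ := c / 2 * (1 + H') ^ (-((n : ℝ) - 1) / (α * n - n + 1)) with hR
  have hRp : 0 < R := by positivity
  have hRd : R ^ n = (c / 2) ^ n * (1 + H') ^ (-((n : ℝ) * ((n : ℝ) - 1)) / (α * n - n + 1)) := by
    rw [hR, mul_pow, ← Real.rpow_natCast ((1 + H') ^ (-((n : ℝ) - 1) / (α * n - n + 1))),
      ← Real.rpow_mul hH1.le]
    congr 2
    field_simp
  have hvol : ∀ i, volume ((fun v => b v + t i • v) '' closedBall 0 1) < ENNReal.ofReal (R ^ n) := by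
    intro i
    have h1 := hcon (i : ℕ) (by have := i.2; omega)
    have h2 : (fun v => a v + ((i : ℕ) : ℝ) • v) '' closedBall v0 r =
        (fun z => ((i : ℕ) : ℝ) • v0 + z) '' ((n * r) • ((fun v => b v + t i • v) ''
          closedBall (0 : Fin n → ℝ) 1)) := by
      have hkey : ∀ u ∈ closedBall (0 : Fin n → ℝ) 1, ((i : ℕ) : ℝ) • v0 +
          (n * r) • (b u + t i • u) = a (v0 + r • u) + ((i : ℕ) : ℝ) • (v0 + r • u) := by
        intro u hu
        rw [hb]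
        simp only
        rw [Pool.Agent.W769.Kak.clamp_eq 0 zero_le_one hu, smul_add, smul_smul,
          mul_inv_cancel₀ hnr.ne', one_smul, smul_add, smul_smul, smul_smul]
        have h5 : (n * r) * t i = ((i : ℕ) : ℝ) * r := by
          rw [ht]; field_simp
        rw [h5]
        abel
      ext x
      constructor
      · rintro ⟨v, hv, rfl⟩
        have hu : r⁻¹ • (v - v0) ∈ closedBall (0 : Fin n → ℝ) 1 := by
          rw [mem_closedBall, dist_eq_norm] at hv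
          rw [mem_closedBall, dist_zero_right, norm_smul, norm_inv, Real.norm_eq_abs,
            abs_of_pos hr, inv_mul_le_iff₀ hr, mul_one]
          exact hv
        have hvu : v0 + r • (r⁻¹ • (v - v0)) = v := by
          rw [smul_smul, mul_inv_cancel₀ hr.ne', one_smul]; abel
        refine ⟨(n * r) • (b (r⁻¹ • (v - v0)) + t i • (r⁻¹ • (v - v0))),
          Set.smul_mem_smul_set ⟨_, hu, rfl⟩, ?_⟩
        simp only
        rw [hkey _ hu, hvu]
      · rintro ⟨_, ⟨_, ⟨u, hu, rfl⟩, rfl⟩, rfl⟩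
        refine ⟨v0 + r • u, hmem u hu, ?_⟩
        simp only
        rw [hkey u hu]
    rw [h2, Set.image_add_left, measure_preimage_add, Measure.addHaar_smul,
      Module.finrank_fin_fun, abs_of_pos (by positivity)] at h1
    have h3 : ENNReal.ofReal ((c / 2) ^ n * n ^ n * r ^ n *
        (1 + H') ^ (-((n : ℝ) * ((n : ℝ) - 1)) / (α * n - n + 1))) =
        ENNReal.ofReal ((n * r) ^ n) * ENNReal.ofReal (R ^ n) := by
      rw [← ENNReal.ofReal_mul (by positivity), hRd]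
      congr 1
      rw [mul_pow]; ring
    rw [h3] at h1
    exact (ENNReal.mul_lt_mul_iff_right (by positivity) ENNReal.ofReal_ne_top).1 h1
  have h1 := hsl H' b hH'0 hbH t ht1 ht2 R hRp hvol
  have h2 : 0 < (1 + H') ^ (-((n : ℝ) - 1) / (α * n - n + 1)) := by positivity
  rw [hR] at h1
  nlinarith

/-- **Sharpness**: `n` terms are not enough. -/
theorem sharp (n : ℕ) : ∃ (a : (Fin n → ℝ) →ₗ[ℝ] (Fin n → ℝ)) (B : Set (Fin n → ℝ)),
    Bornology.IsBounded B ∧ volume B = 0 ∧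
      ∀ r : Fin n → ℝ, (∀ i, r i ∈ Icc (0 : ℝ) 1) → ∀ j : ℕ, j < n → a r + (j : ℝ) • r ∈ B := by
  let a : (Fin n → ℝ) →ₗ[ℝ] (Fin n → ℝ) :=
    LinearMap.pi fun i => (-((i : ℕ) : ℝ)) • LinearMap.proj i
  refine ⟨a, {x | (∀ i, x i ∈ Icc (-(n : ℝ)) n) ∧ ∃ i, x i = 0}, ?_, ?_, ?_⟩
  · refine (Metric.isBounded_closedBall (x := (0 : Fin n → ℝ)) (r := n)).subset ?_
    rintro x ⟨hx, -⟩
    rw [mem_closedBall, dist_zero_right, pi_norm_le_iff_of_nonneg (by positivity)]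
    intro i
    rw [Real.norm_eq_abs, abs_le]
    exact hx i
  · have h1 : {x : Fin n → ℝ | (∀ i, x i ∈ Icc (-(n : ℝ)) n) ∧ ∃ i, x i = 0} ⊆
        ⋃ i, {x : Fin n → ℝ | x i = 0} := by
      rintro x ⟨-, i, hi⟩
      exact mem_iUnion.2 ⟨i, hi⟩
    refine measure_mono_null h1 (measure_iUnion_null fun i => ?_)
    have h2 := MeasureTheory.Measure.addHaar_submodule (volume : Measure (Fin n → ℝ))
      (LinearMap.ker (LinearMap.proj i : (Fin n → ℝ) →ₗ[ℝ] ℝ)) ?_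
    · exact h2
    · intro h
      have h3 : (fun _ => (1 : ℝ)) ∈ LinearMap.ker (LinearMap.proj i : (Fin n → ℝ) →ₗ[ℝ] ℝ) := by
        rw [h]; trivial
      simp at h3
  · intro r hr j hj
    have hval : ∀ i, (a r + (j : ℝ) • r) i = ((j : ℝ) - (i : ℕ)) * r i := by
      intro i
      simp only [a, Pi.add_apply, LinearMap.pi_apply, LinearMap.smul_apply, LinearMap.proj_apply,
        smul_eq_mul, Pi.smul_apply]
      ring
    refine ⟨fun i => ?_, ⟨j, hj⟩, ?_⟩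
    · rw [hval i]
      have h1 := hr i
      have h2 : ((i : ℕ) : ℝ) ≤ n := by exact_mod_cast i.2.le
      have h3 : (j : ℝ) ≤ n := by exact_mod_cast hj.le
      have h4 : (0 : ℝ) ≤ (i : ℕ) := by positivity
      have h5 : (0 : ℝ) ≤ j := by positivity
      constructor <;> nlinarith [h1.1, h1.2]
    · rw [hval]
      simp

end Pool.Agent.Q184.AKS
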